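import Mathlib
import Pool.Agent.H12.OlsC

set_option autoImplicit false

namespace Pool.Agent.Results.MP_2d9e0f_co.Counter

/-- `φ` is a `(t, s, v)` all-or-nothing transform -/
def IsAONT (t s v : ℕ) (φ : (Fin s → Fin v) → (Fin s → Fin v)) : Prop :=
  Function.Bijective φ ∧ ∀ I J : Finset (Fin s), I.card = t → J.card = t →
    Function.Bijective fun x : Fin s → Fin v =>
      ((fun i : {i // i ∈ I} => x i), (fun j : {j // j ∉ J} => φ x j))

def T0 : ℕ := 767774371992628020725473287772542453347314981449089155814397443764944454894090839773001854766030600749278605086079172537701486415625539189937962602248123976896217559847579412378137259282447860010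

def T1 : ℕ := 750963862168051094139965473361733513624704797352563007610506309801705810504208797737176950526601399595317271176464764208460345788611878005281938246012216321658641686897556464669388665566629496538

def T2 : ℕ := 767430868873628951759857289811742547425159949875197630241684623897576985584567730271102617589702911398655993463079435359985449400343820633339071241875900308232043914041159732134049075618131006250

def f (T a b c : ℕ) : ℕ := (T >>> (3 * (36 * a + 6 * b + c))) % 8 % 6

def g (x : Fin 3 → Fin 6) : Fin 3 → Fin 6 :=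
  ![⟨f T0 (x 0) (x 1) (x 2), Nat.mod_lt _ (by norm_num)⟩,
    ⟨f T1 (x 0) (x 1) (x 2), Nat.mod_lt _ (by norm_num)⟩,
    ⟨f T2 (x 0) (x 1) (x 2), Nat.mod_lt _ (by norm_num)⟩]

def w (p q : ℕ) : ℕ := if p = q then 1 else 0

set_option synthInstance.maxSize 2000 in
theorem key : ∀ a < 6, ∀ b < 6, ∀ c < 6, ∀ a' < 6, ∀ b' < 6, ∀ c' < 6,
    3 ≤ w (f T0 a b c) (f T0 a' b' c') + w (f T1 a b c) (f T1 a' b' c') +
      w (f T2 a b c) (f T2 a' b' c') + min 1 (w a a' + w b b' + w c c') →
    a = a' ∧ b = b' ∧ c = c' := by decide +kernel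

theorem g_inj (x y : Fin 3 → Fin 6)
    (h : 3 ≤ w (g x 0) (g y 0) + w (g x 1) (g y 1) + w (g x 2) (g y 2) +
      min 1 (w (x 0) (y 0) + w (x 1) (y 1) + w (x 2) (y 2))) : x = y := by
  obtain ⟨a, b, c⟩ := key _ (x 0).2 _ (x 1).2 _ (x 2).2 _ (y 0).2 _ (y 1).2 _ (y 2).2 h
  funext i
  fin_cases i <;> apply Fin.ext <;> assumption

theorem w_eq (p : ℕ) : w p p = 1 := if_pos rfl

theorem three : IsAONT 1 3 6 g := by
  refine ⟨Finite.injective_iff_bijective.1 fun x y h => g_inj x y ?_, fun I J hI hJ => ?_⟩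
  · rw [h, w_eq, w_eq, w_eq]
    omega
  · obtain ⟨i, rfl⟩ := Finset.card_eq_one.1 hI
    obtain ⟨j, rfl⟩ := Finset.card_eq_one.1 hJ
    rw [Fintype.bijective_iff_injective_and_card]
    refine ⟨fun x y h => g_inj x y ?_, ?_⟩
    · have h1 : x i = y i := congrFun (congrArg Prod.fst h) ⟨i, by simp⟩
      have h2 : ∀ k, k ≠ j → g x k = g y k := fun k hk =>
        congrFun (congrArg Prod.snd h) ⟨k, by simpa using hk⟩
      have a : 1 ≤ w (x 0) (y 0) + w (x 1) (y 1) + w (x 2) (y 2) := by
        fin_cases i <;> simp only [Fin.zero_eta, Fin.mk_one, Fin.reduceFinMk] at h1 <;>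
          rw [h1, w_eq] <;> omega
      fin_cases j
      · rw [h2 1 (by decide), h2 2 (by decide), w_eq, w_eq]; omega
      · rw [h2 0 (by decide), h2 2 (by decide), w_eq, w_eq]; omega
      · rw [h2 0 (by decide), h2 1 (by decide), w_eq, w_eq]; omega
    · simp [Fintype.card_subtype_compl]

theorem two (φ : (Fin 2 → Fin 6) → (Fin 2 → Fin 6)) : ¬ IsAONT 1 2 6 φ := by
  rintro ⟨h1, h2⟩
  have k : ∀ (i m : Fin 2) (x y : Fin 2 → Fin 6), x i = y i → φ x m = φ y m → x = y := by
    intro i m x y a b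
    refine (h2 {i} {m + 1} (by simp) (by simp)).1 (Prod.ext ?_ ?_)
    · funext u
      obtain ⟨u, hu⟩ := u
      obtain rfl := Finset.mem_singleton.1 hu
      exact a
    · funext u
      obtain ⟨u, hu⟩ := u
      have : u = m := (by decide : ∀ m u : Fin 2, u ∉ ({m + 1} : Finset (Fin 2)) → u = m) m u hu
      subst this
      exact b
  have r : ∀ (m : Fin 2) (i : Fin 6), Function.Bijective fun j => φ ![i, j] m := fun m i =>
    Finite.injective_iff_bijective.1 fun j l h => congrFun (k 0 m ![i, j] ![i, l] rfl h) 1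
  refine Pool.Agent.H12.Ols.no_ols (fun i j => φ ![i, j] 0) (fun i j => φ ![i, j] 1) (r 0)
    (fun i l j h => congrFun (k 1 0 ![i, j] ![l, j] rfl h) 0) (r 1)
    (fun i l j h => congrFun (k 1 1 ![i, j] ![l, j] rfl h) 0) fun i j l m a b => ?_
  have : φ ![i, j] = φ ![l, m] := by
    funext u
    fin_cases u
    · exact a
    · exact b
  exact congrFun (h1.1 this) 0

theorem result : ¬ ∀ v t s : ℕ, 1 ≤ v → 1 ≤ t → t ≤ s - 1 →
    (∃ φ, IsAONT t s v φ) → ∃ φ, IsAONT t (s - 1) v φ := by
  intro h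
  obtain ⟨φ, hφ⟩ := h 6 1 3 (by norm_num) le_rfl (by norm_num) ⟨g, three⟩
  exact two φ hφ

end Pool.Agent.Results.MP_2d9e0f_co.Counter
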